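import Pool.Agent.H40.AG.Base
import Pool.Agent.H24.UG.T7

/-!
UNIFORM LOCAL GAP (`MP_c59857_nt`): the choice of the parameters of the descent (UC0).
-/

set_option autoImplicit false

open MeasureTheory ProbabilityTheory Filter Topology Finset
open scoped Nat ENNReal

namespace Pool.Agent.H67.UG

open Pool.Agent.H40.AG
open Pool.Agent.H24.UG
open Pool.Agent.H67.AG (avgP ul Inv Rt Av SA kap JJ TT InvZ nxt triv tow XN PN TN XX PX TX prX Fac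
  Tup dl Dlt Mis bd κ₀ Sw SwE T_NA T_NXI T_J2 T_J3)

theorem dt_meas (c : CxE) (i : Fin c.k) : Measurable (c.Dt i) := by
  unfold Cx.Dt
  exact c.Dm.comp (c.T.measurable.iterate _)

theorem dt_val (c : CxE) (i : Fin c.k) (x : c.X) : c.Dt i x = 1 ∨ c.Dt i x = -1 := c.Dv _

theorem dt_abs (c : CxE) (i : Fin c.k) (x : c.X) : |c.Dt i x| = 1 := by
  rcases dt_val c i x with h | h <;> rw [h] <;> simp

theorem int_mp {Ω Ω' : Type} [MeasurableSpace Ω] [MeasurableSpace Ω'] {P : Measure Ω}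
    {P' : Measure Ω'} {g : Ω → Ω'} (hg : MeasurePreserving g P P') {f : Ω' → ℝ}
    (hf : AEStronglyMeasurable f P') : ∫ q, f (g q) ∂P = ∫ q, f q ∂P' := by
  have hf' : AEStronglyMeasurable f (P.map g) := by rwa [hg.map_eq]
  have := integral_map hg.measurable.aemeasurable hf'
  rw [hg.map_eq] at this
  exact this.symm

theorem gg_bound (hna : T_NA) (hj3 : T_J3) (hpnl : T_PNL) (hpnt : T_PNT) (c : CxE)
    (Z : SA c.X) (hZ : InvZ c.T Z) (n W D : ℕ) (i : Fin c.k) (θ : ℝ)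
    (hint : ∫ q, |((JJ c.μ Z)[fun q => c.D1 i q * c.D2 i q | Inv (TT c.T) (W * D)]) q -
      ((JJ c.μ Z)[fun q => c.D1 i q * c.D2 i q | Inv (TT c.T) W]) q| ∂(JJ c.μ Z) ≤ θ)
    (a b : Fin n) (hab : a ≠ b) :
    ∫ q, |((PN c.μ Z n)[fun q => c.Dt i (q.2 a) * c.Dt i (q.2 b) | Inv (TN c.T n) (W * D)]) q -
      ((PN c.μ Z n)[fun q => c.Dt i (q.2 a) * c.Dt i (q.2 b) | Inv (TN c.T n) W]) q|
      ∂(PN c.μ Z n) ≤ θ := by
  have hT : MeasurePreserving c.T c.μ c.μ := c.erg.toMeasurePreserving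
  have hJ : MeasurePreserving (TT c.T) (JJ c.μ Z) (JJ c.μ Z) := (hj3 c.X c.μ c.T Z hT hZ).1
  have hN : MeasurePreserving (TN c.T n) (PN c.μ Z n) (PN c.μ Z n) := hpnt c.X c.μ c.T Z n hT hZ
  have hg : MeasurePreserving (fun q : XN c.X n => (q.2 a, q.2 b)) (PN c.μ Z n) (JJ c.μ Z) :=
    (hpnl c.X c.μ Z n).2.2.2.2 a b hab
  have hfac : Fac (PN c.μ Z n) (TN c.T n) (JJ c.μ Z) (TT c.T)
      (fun q : XN c.X n => (q.2 a, q.2 b)) := ⟨hg, fun q => rfl⟩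
  have hfm : Measurable fun q : c.X × c.X => c.D1 i q * c.D2 i q :=
    ((dt_meas c i).comp measurable_fst).mul ((dt_meas c i).comp measurable_snd)
  have hfb : ∃ C, ∀ q : c.X × c.X, |c.D1 i q * c.D2 i q| ≤ C :=
    ⟨1, fun q => by
      rw [abs_mul]
      change |c.Dt i q.1| * |c.Dt i q.2| ≤ 1
      rw [dt_abs, dt_abs, one_mul]⟩
  have e1 := hna (XN c.X n) (c.X × c.X) (PN c.μ Z n) (JJ c.μ Z) (TN c.T n) (TT c.T)
    (fun q : XN c.X n => (q.2 a, q.2 b)) (W * D) _ hN hJ hfac hfm hfb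
  have e2 := hna (XN c.X n) (c.X × c.X) (PN c.μ Z n) (JJ c.μ Z) (TN c.T n) (TT c.T)
    (fun q : XN c.X n => (q.2 a, q.2 b)) W _ hN hJ hfac hfm hfb
  refine le_trans (le_of_eq ?_) hint
  have hsm : AEStronglyMeasurable (fun q : c.X × c.X =>
      |((JJ c.μ Z)[fun q => c.D1 i q * c.D2 i q | Inv (TT c.T) (W * D)]) q -
      ((JJ c.μ Z)[fun q => c.D1 i q * c.D2 i q | Inv (TT c.T) W]) q|) (JJ c.μ Z) :=
    (integrable_condExp.sub integrable_condExp).abs.aestronglyMeasurable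
  rw [← int_mp hg hsm]
  apply integral_congr_ae
  filter_upwards [e1, e2] with q e1 e2
  have e1' : ((PN c.μ Z n)[fun q => c.Dt i (q.2 a) * c.Dt i (q.2 b) | Inv (TN c.T n) (W * D)]) q =
    ((JJ c.μ Z)[fun q => c.D1 i q * c.D2 i q | Inv (TT c.T) (W * D)]) (q.2 a, q.2 b) := e1
  have e2' : ((PN c.μ Z n)[fun q => c.Dt i (q.2 a) * c.Dt i (q.2 b) | Inv (TN c.T n) W]) q =
    ((JJ c.μ Z)[fun q => c.D1 i q * c.D2 i q | Inv (TT c.T) W]) (q.2 a, q.2 b) := e2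
  rw [e1', e2']

theorem gg_diag (c : CxE) (Z : SA c.X) (n W D : ℕ) (i : Fin c.k) (a : Fin n) :
    ∫ q, |((PN c.μ Z n)[fun q => c.Dt i (q.2 a) * c.Dt i (q.2 a) | Inv (TN c.T n) (W * D)]) q -
      ((PN c.μ Z n)[fun q => c.Dt i (q.2 a) * c.Dt i (q.2 a) | Inv (TN c.T n) W]) q|
      ∂(PN c.μ Z n) = 0 := by
  have h1 : (fun q : XN c.X n => c.Dt i (q.2 a) * c.Dt i (q.2 a)) = fun _ => (1 : ℝ) := by
    funext q
    rcases dt_val c i (q.2 a) with h | h <;> rw [h] <;> norm_num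
  rw [h1, condExp_const (inv_le _ _), condExp_const (inv_le _ _)]
  simp

/-- the numbers -/
theorem par_num0 {m k N θ : ℝ} (hm : 0 < m) (hk : 1 ≤ k) (hN : 1 ≤ N)
    (hθ : θ = m / (10 ^ 7 * N ^ 2 * (k + 1) ^ 2 * (2000 * (k + 1)))) :
    0 < θ ∧ θ * (10 ^ 7 * N ^ 2 * (k + 1) ^ 2) ≤ m ∧
    3 * θ + m / (4 * 10 ^ 7 * (k + 1) ^ 2) + (100000 / 81 * N + 100 * N ^ 2) * θ ≤
      m / (10 ^ 7 * (k + 1) ^ 2) ∧
    N ^ 2 * k * θ ≤ m / (3 * 10 ^ 4 * (k + 1) ^ 2) ∧ θ ≤ m / (3 * 10 ^ 4 * (k + 1) ^ 2) := by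
  have hk0 : 0 < k := by linarith
  have hN0 : 0 < N := by linarith
  have hD : 0 < 10 ^ 7 * N ^ 2 * (k + 1) ^ 2 * (2000 * (k + 1)) := by positivity
  have hθ0 : 0 < θ := by rw [hθ]; positivity
  have hmul : θ * (10 ^ 7 * N ^ 2 * (k + 1) ^ 2 * (2000 * (k + 1))) = m := by
    rw [hθ, div_mul_cancel₀ _ hD.ne']
  have hN2 : N ≤ N ^ 2 := by nlinarith
  have hN1 : 1 ≤ N ^ 2 := by nlinarith
  have hA : 2000 * (θ * (10 ^ 7 * N ^ 2 * (k + 1) ^ 2)) ≤ m := by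
    rw [← hmul]
    have : 0 ≤ θ * (10 ^ 7 * N ^ 2 * (k + 1) ^ 2) := by positivity
    nlinarith
  have hB : k * (2000 * (θ * (10 ^ 7 * N ^ 2 * (k + 1) ^ 2))) ≤ m := by
    rw [← hmul]
    have : 0 ≤ θ * (10 ^ 7 * N ^ 2 * (k + 1) ^ 2) := by positivity
    nlinarith
  have hK : 0 < (k + 1) ^ 2 := by positivity
  refine ⟨hθ0, ?_, ?_, ?_, ?_⟩
  · have : 0 ≤ θ * (10 ^ 7 * N ^ 2 * (k + 1) ^ 2) := by positivity
    linarith
  · have h2 : 3 * θ + (100000 / 81 * N + 100 * N ^ 2) * θ ≤ 1400 * N ^ 2 * θ := by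
      have : (100000 / 81 * N + 100 * N ^ 2) * θ ≤ (1235 * N ^ 2 + 100 * N ^ 2) * θ := by
        apply mul_le_mul_of_nonneg_right _ hθ0.le
        nlinarith
      nlinarith
    have h3 : 1400 * N ^ 2 * θ ≤ 3 * (m / (4 * 10 ^ 7 * (k + 1) ^ 2)) := by
      rw [mul_div_assoc', le_div_iff₀ (by positivity)]
      nlinarith
    have h4 : m / (10 ^ 7 * (k + 1) ^ 2) = 4 * (m / (4 * 10 ^ 7 * (k + 1) ^ 2)) := by
      field_simp
    rw [h4]
    linarith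
  · rw [le_div_iff₀ (by positivity)]
    nlinarith
  · rw [le_div_iff₀ (by positivity)]
    have : θ * (k + 1) ^ 2 ≤ θ * (N ^ 2 * (k + 1) ^ 2) := by
      apply mul_le_mul_of_nonneg_left _ hθ0.le
      nlinarith
    nlinarith

theorem par_num {γ m k N θ : ℝ} (hγ : 0 < γ) (hγ1 : γ ≤ 1) (hm : 0 < m) (hk : 1 ≤ k) (hN : 1 ≤ N)
    (hθ : θ = γ ^ 2 * (γ ^ 4 * m / (10 ^ 7 * N ^ 2 * (k + 1) ^ 2 * (2000 * (k + 1))))) :
    0 < θ ∧ θ * (10 ^ 7 * N ^ 2 * (k + 1) ^ 2) ≤ γ ^ 4 * m ∧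
    2 * θ + θ + γ ^ 4 * m / (4 * 10 ^ 7 * (k + 1) ^ 2) +
      (N / (81 / 100000 * γ ^ 2) + 100 * N ^ 2 / γ) * θ ≤ γ ^ 4 * m / (10 ^ 7 * (k + 1) ^ 2) ∧
    N ^ 2 * k * θ ≤ γ ^ 2 * m / (3 * 10 ^ 4 * (k + 1) ^ 2) ∧
    θ ≤ γ ^ 2 * m / (3 * 10 ^ 4 * (k + 1) ^ 2) := by
  obtain ⟨τ, hτ⟩ : ∃ τ : ℝ, τ = γ ^ 4 * m / (10 ^ 7 * N ^ 2 * (k + 1) ^ 2 * (2000 * (k + 1))) :=
    ⟨_, rfl⟩
  have hm' : 0 < γ ^ 4 * m := by positivity
  obtain ⟨h0, h1, h2, h3, h4⟩ := par_num0 hm' hk hN hτ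
  rw [← hτ] at hθ
  have hg2 : γ ^ 2 ≤ 1 := pow_le_one₀ hγ.le hγ1
  have hg20 : 0 < γ ^ 2 := by positivity
  have hg4 : γ ^ 4 * m ≤ m := by
    have : γ ^ 4 ≤ 1 := pow_le_one₀ hγ.le hγ1
    nlinarith
  have hk0 : 0 < k := by linarith
  have hle : θ ≤ τ := by
    rw [hθ]
    nlinarith
  have hθ0 : 0 < θ := by rw [hθ]; positivity
  have hdm : γ ^ 4 * m / (3 * 10 ^ 4 * (k + 1) ^ 2) ≤ m / (3 * 10 ^ 4 * (k + 1) ^ 2) :=
    div_le_div_of_nonneg_right hg4 (by positivity)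
  refine ⟨hθ0, ?_, ?_, ?_, ?_⟩
  · refine le_trans (mul_le_mul_of_nonneg_right hle (by positivity)) h1
  · have e1 : N / (81 / 100000 * γ ^ 2) * θ = 100000 / 81 * N * τ := by
      rw [hθ]
      field_simp
    have e2 : 100 * N ^ 2 / γ * θ ≤ 100 * N ^ 2 * τ := by
      have : 100 * N ^ 2 / γ * θ = γ * (100 * N ^ 2 * τ) := by
        rw [hθ]
        field_simp
      rw [this]
      have h5 : 0 ≤ 100 * N ^ 2 * τ := by positivity
      nlinarith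
    rw [add_mul, e1]
    rw [add_mul] at h2
    linarith
  · have : N ^ 2 * k * θ = γ ^ 2 * (N ^ 2 * k * τ) := by
      rw [hθ]
      ring
    rw [this, mul_div_assoc]
    exact mul_le_mul_of_nonneg_left (h3.trans hdm) hg20.le
  · rw [hθ, mul_div_assoc]
    exact mul_le_mul_of_nonneg_left (h4.trans hdm) hg20.le

theorem W_pos (c : CxE) (w : ℕ) : 0 < c.W w := Nat.mul_pos c.Qpos (Nat.factorial_pos w)

theorem mis_integrable {Ω : Type} (m : MeasurableSpace Ω) [mΩ : MeasurableSpace Ω]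
    (P : Measure Ω) {k : ℕ} (y y' : Fin k → Ω → ℝ) : Integrable (Mis P m y y') P := by
  unfold Mis
  exact integrable_finsetSum _ fun i _ => integrable_condExp

/-- the reference system of section 7 -/
noncomputable def refS (hpnt : T_PNT) (c : CxE) (Z : SA c.X) (hZ : InvZ c.T Z) (n w : ℕ) (hw : 0 < w) : Sw where
  k := c.k
  β := c.β
  inj := c.inj
  σ := 1
  σv := Or.inl rfl
  w := w
  W := c.W w
  hw := hw
  hW := W_pos c w
  hd := Dvd.intro_left _ rfl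
  U := c.U w
  hU := c.hU w
  Ω' := XN c.X n
  P' := PN c.μ Z n
  T' := TN c.T n
  mp' := hpnt c.X c.μ c.T Z n c.erg.toMeasurePreserving hZ
  n := n
  y := fun b i q => c.Dt i (q.2 b)
  hy := fun b => ⟨fun i => (dt_meas c i).comp ((measurable_pi_apply b).comp measurable_snd),
    fun i _ => dt_val c i _⟩

theorem pf_UC0 (h1 : T_UCM) (h2 : T_UCW) (h3 : T_UCL) (h4 : T_UCR) (h5 : T_UGG) (h6 : T_USV)
    (h7 : T_USW) (hna : T_NA) (hnx : T_NXI) (_hj2 : T_J2) (hj3 : T_J3) (hpnl : T_PNL)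
    (hpnt : T_PNT) (_hpxl : T_PXL) (hpxt : T_PXT) (hpxf : T_PXF) : T_UC0 := by
  intro c Z hZ hcp
  obtain ⟨hZ', hle, hrt⟩ := hnx c.X c.μ c.T Z c.erg hZ
  have hT : MeasurePreserving c.T c.μ c.μ := c.erg.toMeasurePreserving
  set Z' := nxt c.μ c.T Z with hZdef
  obtain ⟨c₀, X1, hc0, hc1, hX1, hXg, hpos, hcl⟩ := h1 c Z' hZ' hcp
  have hk1 : 1 ≤ c.k := c.kpos
  have hkR : (1 : ℝ) ≤ c.k := by exact_mod_cast hk1
  obtain ⟨γ, hγ⟩ : ∃ γ : ℝ, γ = c.γ := ⟨_, rfl⟩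
  have hγ0 : 0 < γ := by rw [hγ]; exact c.γ0
  have hγ1 : γ ≤ 1 := by rw [hγ]; exact c.γ1
  set M : ℝ := c.μ.real X1 with hM
  set ε : ℝ := γ ^ 4 * M / (4 * 10 ^ 7 * ((c.k : ℝ) + 1) ^ 2) with hε
  have hε0 : 0 < ε := by positivity
  obtain ⟨n, hn⟩ : ∃ n : ℕ, (1 - c₀) ^ (n + 1) ≤ ε := by
    obtain ⟨n, hn⟩ := exists_pow_lt_of_lt_one hε0 (show 1 - c₀ < 1 by linarith)
    refine ⟨n, ?_⟩
    rw [pow_succ]
    have h0 : 0 ≤ (1 - c₀) ^ n := pow_nonneg (by linarith) n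
    nlinarith
  obtain ⟨g, hg1, hg2⟩ : ∃ g : ℕ, 1 ≤ g * γ ∧ g * γ ≤ 2 := by
    refine ⟨⌈1 / γ⌉₊, ?_, ?_⟩
    · have := Nat.le_ceil (1 / γ)
      rw [div_le_iff₀ hγ0] at this
      exact this
    · have := (Nat.ceil_lt_add_one (show 0 ≤ 1 / γ by positivity)).le
      calc (⌈1 / γ⌉₊ : ℝ) * γ ≤ (1 / γ + 1) * γ := mul_le_mul_of_nonneg_right this hγ0.le
        _ = 1 + γ := by field_simp
        _ ≤ 2 := by linarith
  have hN1 : (1 : ℝ) ≤ (n : ℝ) + 1 := by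
    have : (0 : ℝ) ≤ n := Nat.cast_nonneg n
    linarith
  obtain ⟨θ, hθ⟩ : ∃ θ : ℝ, θ = γ ^ 2 * (γ ^ 4 * M / (10 ^ 7 * ((n : ℝ) + 1) ^ 2 *
    ((c.k : ℝ) + 1) ^ 2 * (2000 * ((c.k : ℝ) + 1)))) := ⟨_, rfl⟩
  obtain ⟨hθ0, hθ1, hθ2, hθ3, hθ4⟩ := par_num hγ0 hγ1 hpos hkR hN1 hθ
  set η : ℝ := γ ^ 2 * M / (3 * 10 ^ 4 * ((c.k : ℝ) + 1) ^ 2) with hη
  have hη0 : 0 < η := by positivity
  obtain ⟨w, X1', hw, hdn, hX1', -, hsd, hlam, hmis, hpair, hkw⟩ :=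
    h2 c Z' X1 (θ / 2) hZ' hX1 hXg (by linarith)
  obtain ⟨L₀, hL₀⟩ := h3 c Z' (c.W w) (θ / 2) hZ' (by linarith)
  set d := refS hpnt c Z' hZ' (n + 1) w hw with hd
  have hsw1 : ∑ a, ∑ b, ∑ i, ∫ ω, |(d.P'[d.gg a b i | Inv d.T' (d.W * Dlt d.β)]) ω -
      (d.P'[d.gg a b i | Inv d.T' d.W]) ω| ∂d.P' ≤ η := by
    have hterm : ∀ (a b : Fin (n + 1)) (i : Fin c.k),
        ∫ ω, |(d.P'[d.gg a b i | Inv d.T' (d.W * Dlt d.β)]) ω -
        (d.P'[d.gg a b i | Inv d.T' d.W]) ω| ∂d.P' ≤ θ / 2 := by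
      intro a b i
      by_cases hab : a = b
      · subst hab
        have := gg_diag c Z' (n + 1) (c.W w) (Dlt c.β) i a
        exact this.le.trans (by linarith)
      · exact gg_bound hna hj3 hpnl hpnt c Z' hZ' (n + 1) (c.W w) (Dlt c.β) i (θ / 2)
          (hpair i) a b hab
    have hsum : ∑ a : Fin (n + 1), ∑ b : Fin (n + 1), ∑ i : Fin c.k,
        ∫ ω, |(d.P'[d.gg a b i | Inv d.T' (d.W * Dlt d.β)]) ω -
        (d.P'[d.gg a b i | Inv d.T' d.W]) ω| ∂d.P' ≤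
        ∑ a : Fin (n + 1), ∑ b : Fin (n + 1), ∑ i : Fin c.k, θ / 2 :=
      Finset.sum_le_sum fun a _ => Finset.sum_le_sum fun b _ => Finset.sum_le_sum fun i _ =>
        hterm a b i
    refine hsum.trans ?_
    simp only [Finset.sum_const, Finset.card_univ, Fintype.card_fin, nsmul_eq_mul]
    push_cast
    have hk0 : (0 : ℝ) ≤ c.k := by linarith
    nlinarith [mul_nonneg (mul_nonneg (sq_nonneg ((n : ℝ) + 1)) hk0) hθ0.le]
  have hsw2 : (d.k : ℝ) ^ 2 / d.w ≤ η := by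
    change (c.k : ℝ) ^ 2 / w ≤ η
    linarith
  obtain ⟨L₁, hL₁⟩ := h7 d γ η hγ0 hγ1 hη0 hsw1 hsw2
  obtain ⟨h, hh⟩ : ∃ h : ℕ, h = L₀ + L₁ + 1 := ⟨_, rfl⟩
  obtain ⟨L, hL⟩ : ∃ L : ℕ, L = 16 * c.k * g * h := ⟨_, rfl⟩
  have hgpos : 1 ≤ g := by
    rcases Nat.eq_zero_or_pos g with h0 | h0
    · rw [h0] at hg1
      norm_num at hg1
    · exact h0
  have hhL : h ≤ L := by
    rw [hL]
    have : 1 ≤ 16 * c.k * g := Nat.mul_pos (by omega) hgpos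
    nlinarith
  have hLpos : 0 < L := by omega
  have hLL₀ : L₀ ≤ L := by omega
  have hLL₁ : ∀ l : ℕ, l ≤ L₁ → 16 * (c.k : ℝ) * l ≤ γ * L := by
    intro l hl
    have hlh : (l : ℝ) ≤ h := by exact_mod_cast (show l ≤ h by omega)
    have : γ * (L : ℝ) = 16 * (c.k : ℝ) * h * (g * γ) := by
      rw [hL]
      push_cast
      ring
    rw [this]
    have h0 : (0 : ℝ) ≤ h := Nat.cast_nonneg h
    have h1 : 16 * (c.k : ℝ) * l ≤ 16 * (c.k : ℝ) * h := by nlinarith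
    have h2 : 0 ≤ 16 * (c.k : ℝ) * h := by positivity
    nlinarith
  obtain ⟨R, hRp, hRT, hRJ, hR1, hR2, hRw, hRx⟩ := h4 c Z (c.W w) L X1' θ hZ (W_pos c w) hX1' hθ0
  set P : Measure (XX c.X (n + 1)) := PX c.μ Z' (n + 1) R with hP
  -- the window
  have hwin : ∫ q, |c.dL (c.W w) L q - c.MR Z' q| ∂(JJ c.μ Z') ≤ θ := by
    have hdLm : Measurable (c.dL (c.W w) L) := by
      unfold CxE.dL
      refine Finset.measurable_sum _ fun i _ => av_meas _ _ _ ?_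
      unfold dl
      exact Measurable.ite (measurableSet_eq_fun
        ((dt_meas c i).comp measurable_fst) ((dt_meas c i).comp measurable_snd))
        measurable_const measurable_const
    have hdLb : ∃ C, ∀ q, |c.dL (c.W w) L q| ≤ C := by
      refine ⟨c.k, fun q => ?_⟩
      unfold CxE.dL
      refine (Finset.abs_sum_le_sum_abs _ _).trans ?_
      have : ∀ i ∈ (univ : Finset (Fin c.k)), |Av (TT c.T) (c.W w) L (dl c.D1 c.D2 i) q| ≤ 1 :=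
        fun i _ => av_bdd _ _ _ zero_le_one (fun q => by
          unfold dl
          split_ifs <;> simp) q
      refine (Finset.sum_le_sum this).trans ?_
      simp
    have hint1 : Integrable (c.dL (c.W w) L) (JJ c.μ Z') := bint hdLm hdLb
    have hint2 := mis_integrable (Inv (TT c.T) (c.W w)) (JJ c.μ Z') c.D1 c.D2
    have hint3 : Integrable (c.MR Z') (JJ c.μ Z') :=
      mis_integrable (Rt (TT c.T)) (JJ c.μ Z') c.D1 c.D2
    have hle1 := hL₀ L hLL₀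
    calc ∫ q, |c.dL (c.W w) L q - c.MR Z' q| ∂(JJ c.μ Z')
        ≤ ∫ q, (|c.dL (c.W w) L q - Mis (JJ c.μ Z') (Inv (TT c.T) (c.W w)) c.D1 c.D2 q| +
          |Mis (JJ c.μ Z') (Inv (TT c.T) (c.W w)) c.D1 c.D2 q - c.MR Z' q|) ∂(JJ c.μ Z') := by
          refine integral_mono (hint1.sub hint3).abs
            ((hint1.sub hint2).abs.add (hint2.sub hint3).abs) fun q => ?_
          exact abs_sub_le _ _ _
      _ = _ := integral_add (hint1.sub hint2).abs (hint2.sub hint3).abs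
      _ ≤ θ := by linarith
  have hsd' : c.μ.real (symmDiff X1 X1') ≤ θ := by linarith
  have hBG := h5 c Z' c₀ X1 X1' (c.W w) L n R θ θ θ hZ' hrt hc0 hc1 hX1 hXg hcl (W_pos c w)
    hLpos hX1' hsd' hwin hR1 hR2 hRw
  have hBG' : P.real (c.BG Z' (c.W w) L n X1') ≤ γ ^ 4 * M / (10 ^ 7 * ((c.k : ℝ) + 1) ^ 2) := by
    refine hBG.trans ?_
    have e1 : c.m1 = 81 / 100000 * γ ^ 2 := by rw [hγ]; rfl
    rw [e1, ← hγ]
    linarith
  have hmpX : MeasurePreserving (TX c.T (n + 1)) P P :=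
    hpxt c.X c.μ c.T Z' (n + 1) R hT hZ' hR1 hR2 hRT
  have hfacX := hpxf c.X c.μ c.T Z' (n + 1) R hT hZ' hR1 hR2 hRT
  obtain ⟨hselm, -, -⟩ := h6 c Z' X1' (c.W w) L n 0 P hmpX (W_pos c w) hLpos hX1'
  let e : SwE d :=
    { Ω := XX c.X (n + 1)
      P := P
      T := TX c.T (n + 1)
      mp := hmpX
      g := prX c.X (n + 1)
      fac := hfacX.1
      s := c.sel (c.W w) L n X1'
      sm := hselm }
  have hmove : ∀ l ≤ L₁, e.P.real {ω | e.s (e.T^[d.W * l] ω) ≠ e.s ω} ≤ η := by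
    intro l hl
    have := (h6 c Z' X1' (c.W w) L n l P hmpX (W_pos c w) hLpos hX1').2.1
      (by rw [← hγ]; exact hLL₁ l hl)
    refine le_trans this ?_
    have h2 : 2 * (γ ^ 4 * M / (10 ^ 7 * ((c.k : ℝ) + 1) ^ 2)) ≤ η := by
      have hg42 : γ ^ 4 ≤ γ ^ 2 := pow_le_pow_of_le_one hγ0.le hγ1 (by norm_num)
      rw [hη, mul_div_assoc', div_le_div_iff₀ (by positivity) (by positivity)]
      have h3 : 0 ≤ M * ((c.k : ℝ) + 1) ^ 2 := by positivity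
      have h4 : 0 ≤ γ ^ 2 := by positivity
      have h5 := mul_le_mul_of_nonneg_right hg42 h3
      have h6 := mul_nonneg h4 h3
      nlinarith
    linarith
  have hAinv : MeasurableSet[Inv (TX c.T (n + 1)) (c.W w)] {q : XX c.X (n + 1) | q.1.1 ∈ X1'} := by
    obtain ⟨m1, m2⟩ := (set_inv_iff c.T (c.W w) X1').1 hX1'
    refine (set_inv_iff _ _ _).2 ⟨?_, ?_⟩
    · exact (measurable_fst.comp measurable_fst) m1
    · intro q
      have := fac_it hfacX.2.2.2.2.1 (c.W w) q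
      change ((TX c.T (n + 1))^[c.W w] q).1.1 ∈ X1' ↔ q.1.1 ∈ X1'
      rw [this]
      exact m2 q.1.1
  have hfinal := hL₁ e hmove c.σ c.σv (by rw [hγ]; exact hdn)
    {q : XX c.X (n + 1) | q.1.1 ∈ X1'} hAinv
  refine ⟨n, w, L, g, X1, X1', R, θ, hw, hLpos, hθ0.le, ⟨h, hL⟩, by rw [← hγ]; exact hg1,
    by rw [← hγ]; exact hg2, hRp, hX1, hXg, hpos, hX1', hsd',
    hRT, hRJ, hR1, hR2, hRx, by linarith, hwin, by rw [← hγ]; exact hBG', ?_, ?_⟩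
  · rw [← hγ]
    exact hθ1
  · rw [← hγ]
    refine le_trans hfinal ?_
    have hη' : 300 * ((d.k : ℝ) + 1) ^ 2 * η / γ ^ 2 = M / 100 := by
      change 300 * ((c.k : ℝ) + 1) ^ 2 * η / γ ^ 2 = M / 100
      rw [hη]
      field_simp
      ring
    rw [hη']
    exact le_refl _

end Pool.Agent.H67.UG
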