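import Pool.Agent.H24.UG.T6

/-!
UNIFORM LOCAL GAP (`MP_c59857_nt`): the switching lemma from its parts (USW).
-/

set_option autoImplicit false

open MeasureTheory ProbabilityTheory Filter Topology Finset
open scoped Nat ENNReal

namespace Pool.Agent.H67.UG

open Pool.Agent.H24.UG
open Pool.Agent.H67.AG (avgP ul Inv Rt Av Fac Tup dl Dlt Mis bd κ₀ Sw SwE)

theorem sw_inv_le {Ω : Type} [mΩ : MeasurableSpace Ω] (T : Ω ≃ᵐ Ω) (n : ℕ) : Inv T n ≤ mΩ :=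
  MeasurableSpace.invariants_le _

theorem sw_mis_meas {Ω : Type} (m : MeasurableSpace Ω) [mΩ : MeasurableSpace Ω] {k : ℕ}
    (P : Measure Ω) (y y' : Fin k → Ω → ℝ) : Measurable[m] (Mis P m y y') := by
  unfold Mis
  exact Finset.measurable_fun_sum _ fun i _ => stronglyMeasurable_condExp.measurable

theorem sw_mis_int {Ω : Type} (m : MeasurableSpace Ω) [mΩ : MeasurableSpace Ω] {k : ℕ}
    (P : Measure Ω) (y y' : Fin k → Ω → ℝ) : Integrable (Mis P m y y') P := by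
  unfold Mis
  exact integrable_finsetSum _ fun i _ => integrable_condExp

theorem sw_mis_bdd {Ω : Type} (m : MeasurableSpace Ω) [mΩ : MeasurableSpace Ω] {k : ℕ}
    (P : Measure Ω) (y y' : Fin k → Ω → ℝ) :
    ∀ᵐ ω ∂P, |Mis P m y y' ω| ≤ k := by
  have h1 : ∀ i, ∀ᵐ ω ∂P, |(P[dl y y' i | m]) ω| ≤ 1 := by
    intro i
    have h2 : ∀ᵐ ω ∂P, |dl y y' i ω| ≤ (1 : ℝ) := by
      refine Eventually.of_forall fun ω => ?_
      unfold dl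
      split_ifs <;> simp
    exact ae_bdd_abs_condExp_of_ae_bdd_abs (m := m) h2
  filter_upwards [ae_all_iff.2 h1] with ω hω
  unfold Mis
  calc |∑ i, (P[dl y y' i | m]) ω| ≤ ∑ i, |(P[dl y y' i | m]) ω| := Finset.abs_sum_le_sum_abs _ _
    _ ≤ ∑ _i : Fin k, (1 : ℝ) := Finset.sum_le_sum fun i _ => hω i
    _ = k := by simp

theorem sw_num {γ k η a b c e l : ℝ} (hγ : 0 < γ) (hγ1 : γ ≤ 1) (hη : 0 < η) (hk : 0 ≤ k)
    (h1 : a ≤ b + c) (h2 : b ≤ 10 / γ ^ 2 * e) (h3 : e ≤ 2 * l + 12 * (k + 1) ^ 2 * η)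
    (h4 : c ≤ 100 * k * η / γ) : a ≤ 20 / γ ^ 2 * l + 300 * (k + 1) ^ 2 * η / γ ^ 2 := by
  have h5 : 10 / γ ^ 2 * e ≤ 10 / γ ^ 2 * (2 * l + 12 * (k + 1) ^ 2 * η) :=
    mul_le_mul_of_nonneg_left h3 (by positivity)
  have h6 : 100 * k * η / γ ≤ 180 * (k + 1) ^ 2 * η / γ ^ 2 := by
    rw [div_le_div_iff₀ hγ (by positivity)]
    have h7 : 100 * k ≤ 180 * (k + 1) ^ 2 := by nlinarith
    have h8 : γ ^ 2 ≤ γ := by nlinarith
    have h9 : 0 ≤ 100 * k * η := by positivity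
    calc 100 * k * η * γ ^ 2 ≤ 100 * k * η * γ := mul_le_mul_of_nonneg_left h8 h9
      _ ≤ 180 * (k + 1) ^ 2 * η * γ := by
        refine mul_le_mul_of_nonneg_right (mul_le_mul_of_nonneg_right h7 hη.le) hγ.le
  have h10 : 10 / γ ^ 2 * (2 * l + 12 * (k + 1) ^ 2 * η) + 180 * (k + 1) ^ 2 * η / γ ^ 2 =
      20 / γ ^ 2 * l + 300 * (k + 1) ^ 2 * η / γ ^ 2 := by
    field_simp
    ring
  linarith

theorem pf_USW (h3b : T_US3b) (h4 : T_US4) (h4b : T_US4b) (h5 : T_US5) (h6 : T_US6) : T_USW := by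
  intro d γ η hγ hγ1 hη hsum hk
  obtain ⟨L, L₂, L₁, hL, hL₂, h⟩ := h6 d γ η hγ hγ1 hη hsum hk
  refine ⟨L₁, fun e he σ hσ hdn A hA => ?_⟩
  obtain ⟨hE, hs⟩ := h e he
  have hm := sw_inv_le (Ω := e.Ω) e.T d.W
  obtain ⟨h4b1, h4b2, h4b3, h4b4⟩ := h4b d e σ L L₂ hσ hL hL₂
  have hA' : MeasurableSet A := hm A hA
  have key := h4 e.Ω (Inv e.T d.W) e.P γ (fun t => Mis e.P (Inv e.T d.W) e.ys (e.yt t))
    (fun ω => d.k * (e.P[e.mv 1 | Inv e.T d.W]) ω) (fun B => EX e σ L L₂ B) A hγ hγ1 hm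
    (fun t => sw_mis_meas _ _ _ _) (fun t => sw_mis_int _ _ _ _)
    (fun t => by
      refine Integrable.of_bound ((sw_mis_int _ _ _ _).aestronglyMeasurable.pow 2)
        ((d.k : ℝ) ^ 2) ?_
      filter_upwards [sw_mis_bdd (Inv e.T d.W) e.P e.ys (e.yt t)] with ω hω
      rw [Real.norm_eq_abs, abs_pow]
      exact pow_le_pow_left₀ (abs_nonneg _) hω 2)
    (stronglyMeasurable_condExp.measurable.const_mul _) hA h4b3 h4b4
    (fun B hB => h4b1 B (hm B hB)) (fun B B' hB hB' hd => h4b2 B B' (hm B hB) (hm B' hB') hd)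
    (fun t B hB => h3b d e σ γ L L₂ t B hσ hdn hL hL₂ hB)
  have hEA := hE σ hσ A hA'
  have hsub : (A ∩ {ω | ∀ b, γ / 8 < Mis e.P (Inv e.T d.W) e.ys (e.yb b) ω} : Set e.Ω)
      ≤ᵐ[e.P]
      ((A ∩ {ω | (d.k * (e.P[e.mv 1 | Inv e.T d.W]) ω ≤ γ / 100) ∧
        ∃ t, γ / 8 < Mis e.P (Inv e.T d.W) e.ys (e.yt t) ω}) ∪
      {ω | γ / 100 < d.k * (e.P[e.mv 1 | Inv e.T d.W]) ω} : Set e.Ω) := by
    filter_upwards [h5 d e γ] with ω hω
    intro hin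
    obtain ⟨hωA, hωb⟩ := hin
    by_cases hs0 : γ / 100 < d.k * (e.P[e.mv 1 | Inv e.T d.W]) ω
    · exact Or.inr hs0
    · refine Or.inl ⟨hωA, not_lt.1 hs0, ?_⟩
      by_contra hcon
      push Not at hcon
      obtain ⟨b, hb⟩ := hω hcon
      exact absurd (hωb b) (not_lt.2 hb)
  have h1 : e.P.real (A ∩ {ω | ∀ b, γ / 8 < Mis e.P (Inv e.T d.W) e.ys (e.yb b) ω}) ≤
      e.P.real ((A ∩ {ω | (d.k * (e.P[e.mv 1 | Inv e.T d.W]) ω ≤ γ / 100) ∧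
        ∃ t, γ / 8 < Mis e.P (Inv e.T d.W) e.ys (e.yt t) ω}) ∪
      {ω | γ / 100 < d.k * (e.P[e.mv 1 | Inv e.T d.W]) ω} : Set e.Ω) :=
    ENNReal.toReal_mono (measure_ne_top _ _) (measure_mono_ae hsub)
  have h2 := measureReal_union_le (μ := e.P)
    (A ∩ {ω | (d.k * (e.P[e.mv 1 | Inv e.T d.W]) ω ≤ γ / 100) ∧
        ∃ t, γ / 8 < Mis e.P (Inv e.T d.W) e.ys (e.yt t) ω})
      {ω | γ / 100 < d.k * (e.P[e.mv 1 | Inv e.T d.W]) ω}
  exact sw_num hγ hγ1 hη (Nat.cast_nonneg _) (h1.trans h2) key hEA hs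

end Pool.Agent.H67.UG
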